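import Mathlib
import Pool.Agent.H47.WT.Defs

/-!
# P5: distances in a tree and chains
-/

set_option autoImplicit false

namespace Pool.Agent.H47.WT

/-- unique parents -/
private theorem tc_parent {V : Type} {T : SimpleGraph V} (hT : T.IsTree) {s a b c : V}
    (hab : T.Adj a b) (hcb : T.Adj c b) (ha : T.dist s b = T.dist s a + 1)
    (hc : T.dist s b = T.dist s c + 1) : a = c := by
  obtain ⟨p, hp⟩ := hT.connected.exists_walk_length_eq_dist s a
  obtain ⟨q, hq⟩ := hT.connected.exists_walk_length_eq_dist s c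
  have h1 : (p.concat hab).IsPath := by
    apply SimpleGraph.Walk.isPath_of_length_eq_dist
    rw [SimpleGraph.Walk.length_concat, hp, ha]
  have h2 : (q.concat hcb).IsPath := by
    apply SimpleGraph.Walk.isPath_of_length_eq_dist
    rw [SimpleGraph.Walk.length_concat, hq, hc]
  have h3 := (hT.isAcyclic.subsingleton_path _ _).elim ⟨_, h1⟩ ⟨_, h2⟩
  have h4 : p.concat hab = q.concat hcb := congrArg Subtype.val h3
  exact (SimpleGraph.Walk.concat_inj h4).1

/-- existence of a parent -/
private theorem tc_ex {V : Type} {T : SimpleGraph V} (hT : T.IsTree) {s u : V}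
    (h : T.dist s u ≠ 0) : ∃ u', T.Adj u' u ∧ T.dist s u = T.dist s u' + 1 := by
  obtain ⟨p, hp⟩ := hT.connected.exists_walk_length_eq_dist u s
  cases p with
  | nil =>
    exfalso
    apply h
    rw [SimpleGraph.dist_self]
  | cons hadj w =>
    rename_i u'
    refine ⟨u', hadj.symm, ?_⟩
    rw [SimpleGraph.Walk.length_cons] at hp
    have h1 : T.dist u' s ≤ w.length := SimpleGraph.dist_le w
    have h2 : T.dist s u = T.dist u s := SimpleGraph.dist_comm
    have h3 : T.dist s u' = T.dist u' s := SimpleGraph.dist_comm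
    rcases hT.dist_eq_dist_add_one_of_adj s hadj with h4 | h4
    · exact h4
    · omega

private theorem tc_one {V : Type} {T : SimpleGraph V} (hT : T.IsTree) {p q u v : V}
    (hpq : T.Adj p q) (huv : T.Adj u v) (h1 : T.dist p v = T.dist p u + 1)
    (h2 : T.dist q u = T.dist q v + 1) : p = u ∧ q = v := by
  have e : ∀ x y : V, T.dist x y = T.dist y x := fun x y => SimpleGraph.dist_comm
  have h3 := hT.dist_eq_dist_add_one_of_adj u hpq
  have h4 := hT.dist_eq_dist_add_one_of_adj v hpq
  rw [e u p, e u q] at h3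
  rw [e v p, e v q] at h4
  have h5 : T.dist p u = T.dist q v := by omega
  rcases Nat.eq_zero_or_pos (T.dist p u) with h0 | h0
  · refine ⟨?_, ?_⟩
    · exact (hT.connected.dist_eq_zero_iff).1 h0
    · exact (hT.connected.dist_eq_zero_iff).1 (h5 ▸ h0)
  · exfalso
    obtain ⟨u', hu', hd⟩ := tc_ex hT (s := p) (u := u) (by omega)
    have h6 := hT.dist_eq_dist_add_one_of_adj u' hpq
    rw [e u' p, e u' q] at h6
    have h7 := hT.dist_eq_dist_add_one_of_adj q hu'
    have h8 : T.dist q u = T.dist q u' + 1 := by omega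
    have h9 := tc_parent hT (s := q) hu' huv.symm h8 h2
    rw [h9] at hd
    omega

/-- the jump of the distances along an edge -/
private theorem tc_two {V : Type} {T : SimpleGraph V} (hT : T.IsTree) {p q u v : V}
    (hpq : T.Adj p q) (huv : T.Adj u v) (h1 : ¬ (p = u ∧ q = v)) (h2 : ¬ (p = v ∧ q = u)) :
    ((T.dist q u : ℤ) - T.dist q v) - ((T.dist p u : ℤ) - T.dist p v) = 0 := by
  rcases hT.dist_eq_dist_add_one_of_adj p huv with h3 | h3 <;>
    rcases hT.dist_eq_dist_add_one_of_adj q huv with h4 | h4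
  · rw [h3, h4]
    push_cast
    ring
  · exact absurd (tc_one hT hpq huv.symm h3 h4) h2
  · exact absurd (tc_one hT hpq huv h3 h4) h1
  · rw [h3, h4]
    push_cast
    ring

open Classical in
private theorem tc_adj {V : Type} (T : SimpleGraph V) (hT : T.IsTree) {p q : V}
    (hpq : T.Adj p q) :
    ∃ F : V × V →₀ ℤ,
      (∀ e : V × V, F e = if T.Adj e.1 e.2 then
        ((T.dist q e.1 : ℤ) - T.dist q e.2) - ((T.dist p e.1 : ℤ) - T.dist p e.2) else 0) ∧
      F.mapDomain Prod.snd - F.mapDomain Prod.fst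
        = Finsupp.single q (4 : ℤ) - Finsupp.single p 4 := by
  refine ⟨Finsupp.single (p, q) 2 - Finsupp.single (q, p) 2, ?_, ?_⟩
  · rintro ⟨u, v⟩
    have hne : p ≠ q := hpq.ne
    have d1 : T.dist p q = 1 := SimpleGraph.dist_eq_one_iff_adj.2 hpq
    have d2 : T.dist q p = 1 := SimpleGraph.dist_eq_one_iff_adj.2 hpq.symm
    rw [Finsupp.sub_apply, Finsupp.single_apply, Finsupp.single_apply]
    by_cases h1 : p = u ∧ q = v
    · obtain ⟨rfl, rfl⟩ := h1
      have h2 : ¬ ((q, p) = (p, q)) := by
        intro h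
        exact hne (Prod.mk.inj h).2
      rw [if_pos rfl, if_neg h2, if_pos hpq, SimpleGraph.dist_self, SimpleGraph.dist_self, d1, d2]
      norm_num
    · by_cases h2 : p = v ∧ q = u
      · obtain ⟨rfl, rfl⟩ := h2
        have h3 : ¬ ((p, q) = (q, p)) := by
          intro h
          exact hne (Prod.mk.inj h).1
        rw [if_pos rfl, if_neg h3, if_pos hpq.symm, SimpleGraph.dist_self, SimpleGraph.dist_self,
          d1, d2]
        norm_num
      · have h3 : ¬ ((p, q) = (u, v)) := by
          intro h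
          exact h1 (Prod.mk.inj h)
        have h4 : ¬ ((q, p) = (u, v)) := by
          intro h
          exact h2 ⟨(Prod.mk.inj h).2, (Prod.mk.inj h).1⟩
        rw [if_neg h3, if_neg h4, sub_zero]
        by_cases huv : T.Adj u v
        · rw [if_pos huv]
          exact (tc_two hT hpq huv h1 h2).symm
        · rw [if_neg huv]
  · rw [Finsupp.mapDomain_sub, Finsupp.mapDomain_sub]
    simp only [Finsupp.mapDomain_single]
    have e4 : ∀ x : V, (Finsupp.single x (4 : ℤ)) = Finsupp.single x 2 + Finsupp.single x 2 := by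
      intro x
      rw [← Finsupp.single_add]
      norm_num
    rw [e4, e4]
    abel

open Classical in
/-- P5 -/
theorem tree_chain {V : Type} (T : SimpleGraph V) (hT : T.IsTree) (p q : V) :
    ∃ F : V × V →₀ ℤ,
      (∀ e : V × V, F e = if T.Adj e.1 e.2 then
        ((T.dist q e.1 : ℤ) - T.dist q e.2) - ((T.dist p e.1 : ℤ) - T.dist p e.2) else 0) ∧
      F.mapDomain Prod.snd - F.mapDomain Prod.fst
        = Finsupp.single q (4 : ℤ) - Finsupp.single p 4 := by
  obtain ⟨w⟩ := hT.connected.preconnected p q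
  induction w with
  | nil =>
    refine ⟨0, ?_, ?_⟩
    · intro e
      rw [sub_self, Finsupp.zero_apply, ite_self]
    · rw [sub_self, Finsupp.mapDomain_zero, Finsupp.mapDomain_zero, sub_self]
  | cons hadj w ih =>
    obtain ⟨F, hF1, hF2⟩ := ih
    obtain ⟨G, hG1, hG2⟩ := tc_adj T hT hadj
    refine ⟨G + F, ?_, ?_⟩
    · intro e
      rw [Finsupp.add_apply, hF1, hG1]
      by_cases h : T.Adj e.1 e.2
      · rw [if_pos h, if_pos h, if_pos h]
        ring
      · rw [if_neg h, if_neg h, if_neg h, add_zero]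
    · rw [Finsupp.mapDomain_add, Finsupp.mapDomain_add, add_sub_add_comm, hG2, hF2]
      abel

end Pool.Agent.H47.WT
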